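import Pool.Agent.H71.AL.Targets

/-!
# MP_5607ba_lc, row GPR: the words in homeomorphisms form a group
-/

set_option autoImplicit false

open Set

open Pool.Agent.AL

namespace Pool.Agent.H42.ALV

theorem wd_append (f : ℕ → ℝ → ℝ) (v w : List ℕ) (x : ℝ) :
    wd f (v ++ w) x = wd f v (wd f w x) := by
  induction v with
  | nil => rfl
  | cons k v ih =>
    change f k (wd f (v ++ w) x) = f k (wd f v (wd f w x))
    rw [ih]

theorem comp_mono {f g : ℝ → ℝ} (hf : Inc rl f ∨ Dec rl f) (hg : Inc rl g ∨ Dec rl g) :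
    Inc rl (fun x => f (g x)) ∨ Dec rl (fun x => f (g x)) := by
  rcases hf with hf | hf <;> rcases hg with hg | hg
  · exact Or.inl fun x y h => hf _ _ (hg _ _ h)
  · exact Or.inr fun x y h => hf _ _ (hg _ _ h)
  · exact Or.inr fun x y h => hf _ _ (hg _ _ h)
  · exact Or.inl fun x y h => hf _ _ (hg _ _ h)

theorem homeo_mono (g : ℝ ≃ₜ ℝ) : Inc rl g ∨ Dec rl g := by
  rcases g.continuous.strictMono_of_inj g.injective with h | h
  · exact Or.inl fun x y hxy => h hxy
  · exact Or.inr fun x y hxy => h hxy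

theorem dbl_mono (h : ℕ → ℝ ≃ₜ ℝ) (k : ℕ) : Inc rl (dbl h k) ∨ Dec rl (dbl h k) := by
  unfold dbl
  split_ifs
  · exact homeo_mono (h (k / 2))
  · exact homeo_mono (h (k / 2)).symm

theorem dbl_inv (h : ℕ → ℝ ≃ₜ ℝ) (k : ℕ) :
    ∃ s, (∀ x, dbl h s (dbl h k x) = x) ∧ ∀ x, dbl h k (dbl h s x) = x := by
  rcases Nat.even_or_odd' k with ⟨m, rfl | rfl⟩
  · have e1 : dbl h (2 * m) = fun x => h m x := by
      unfold dbl
      rw [if_pos (by omega), Nat.mul_div_cancel_left m (by norm_num)]
    have e2 : dbl h (2 * m + 1) = fun x => (h m).symm x := by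
      unfold dbl
      rw [if_neg (by omega), show (2 * m + 1) / 2 = m by omega]
    refine ⟨2 * m + 1, fun x => ?_, fun x => ?_⟩
    · rw [e1, e2]
      exact (h m).symm_apply_apply x
    · rw [e1, e2]
      exact (h m).apply_symm_apply x
  · have e1 : dbl h (2 * m) = fun x => h m x := by
      unfold dbl
      rw [if_pos (by omega), Nat.mul_div_cancel_left m (by norm_num)]
    have e2 : dbl h (2 * m + 1) = fun x => (h m).symm x := by
      unfold dbl
      rw [if_neg (by omega), show (2 * m + 1) / 2 = m by omega]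
    refine ⟨2 * m, fun x => ?_, fun x => ?_⟩
    · rw [e1, e2]
      exact (h m).apply_symm_apply x
    · rw [e1, e2]
      exact (h m).symm_apply_apply x

theorem pf_GPR : T_GPR := by
  intro h
  refine ⟨⟨[], fun x => rfl⟩, fun v w => ⟨v ++ w, fun x => wd_append _ v w x⟩, ?_, ?_⟩
  · intro w
    induction w with
    | nil => exact ⟨[], fun x => rfl, fun x => rfl⟩
    | cons k w ih =>
      obtain ⟨j, h1, h2⟩ := ih
      obtain ⟨s, h3, h4⟩ := dbl_inv h k
      refine ⟨j ++ [s], fun x => ?_, fun x => ?_⟩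
      · change wd (dbl h) (j ++ [s]) (dbl h k (wd (dbl h) w x)) = x
        rw [wd_append]
        change wd (dbl h) j (dbl h s (dbl h k (wd (dbl h) w x))) = x
        rw [h3]
        exact h1 x
      · change dbl h k (wd (dbl h) w (wd (dbl h) (j ++ [s]) x)) = x
        rw [wd_append]
        change dbl h k (wd (dbl h) w (wd (dbl h) j (dbl h s x))) = x
        have h5 := h2 (dbl h s x)
        change wd (dbl h) w (wd (dbl h) j (dbl h s x)) = dbl h s x at h5
        rw [h5, h4]
  · intro w
    induction w with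
    | nil => exact Or.inl fun x y hxy => hxy
    | cons k w ih =>
      change Inc rl (fun x => dbl h k (gr h w x)) ∨ Dec rl (fun x => dbl h k (gr h w x))
      exact comp_mono (dbl_mono h k) ih

end Pool.Agent.H42.ALV
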