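import Pool.Agent.H71.AL.Targets

/-!
# MP_5607ba_lc, row INV: invariance of all notions
-/

set_option autoImplicit false

open Set

open Pool.Agent.AL

namespace Pool.Agent.H42.ALV

theorem inc_iff {f : ℝ → ℝ} (hf : Inc rl f) (x y : ℝ) : f x < f y ↔ x < y :=
  (show StrictMono f from fun a b h => hf a b h).lt_iff_lt

theorem dec_iff {f : ℝ → ℝ} (hf : Dec rl f) (x y : ℝ) : f y < f x ↔ x < y :=
  (show StrictAnti f from fun a b h => hf a b h).lt_iff_gt

/-- the image of an interval -/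
theorem img {f : ℝ → ℝ} (hf : Inc rl f ∨ Dec rl f) {p q : ℝ} (hpq : p < q) :
    ∃ P Q, P < Q ∧ ∀ x, (P < f x ∧ f x < Q) ↔ (p < x ∧ x < q) := by
  rcases hf with hf | hf
  · exact ⟨f p, f q, hf p q hpq, fun x => and_congr (inc_iff hf p x) (inc_iff hf x q)⟩
  · exact ⟨f q, f p, hf p q hpq, fun x =>
      (and_congr (dec_iff hf x q) (dec_iff hf p x)).trans and_comm⟩

section

variable {ι : Type} {G : ι → ℝ → ℝ} (hG : Gp rl G) (j : ι)

include hG in
/-- conjugates -/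
theorem conj (j1 i : ι) : ∃ k, ∀ x, G k x = G j1 (G i (G j x)) := by
  obtain ⟨a, ha⟩ := hG.mul i j
  obtain ⟨b, hb⟩ := hG.mul j1 a
  exact ⟨b, fun x => by rw [hb, ha]⟩

include hG in
theorem gd_img {p q : ℝ} (h : Gd rl G p q) :
    ∃ P Q, Gd rl G P Q ∧ ∀ x, (P < G j x ∧ G j x < Q) ↔ (p < x ∧ x < q) := by
  obtain ⟨j1, hj1, hj2⟩ := hG.inv j
  obtain ⟨P, Q, hPQ, hx⟩ := img (hG.mono j) h.1
  refine ⟨P, Q, ⟨hPQ, fun i => ?_⟩, hx⟩
  obtain ⟨k, hk⟩ := conj hG j j1 i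
  have hk' : ∀ x, G j (G k x) = G i (G j x) := fun x => by rw [hk, hj2]
  rcases h.2 k with hA | hB
  · left
    intro X h1 h2 h3
    obtain ⟨x, rfl⟩ : ∃ x, G j x = X := ⟨G j1 X, hj2 X⟩
    have h4 := (hx x).1 ⟨h1, h2⟩
    refine hA x h4.1 h4.2 ((hx (G k x)).1 ?_)
    rw [hk']
    exact h3
  · right
    intro X h1 h2
    obtain ⟨x, rfl⟩ : ∃ x, G j x = X := ⟨G j1 X, hj2 X⟩
    have h4 := (hx x).1 ⟨h1, h2⟩
    rw [← hk', hB x h4.1 h4.2]

include hG in
theorem ws_img {x : ℝ} (h : Ws rl G x) : Ws rl G (G j x) := by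
  obtain ⟨p, q, h1, h2, h3⟩ := h
  obtain ⟨P, Q, h4, h5⟩ := gd_img hG j h1
  have h6 := (h5 x).2 ⟨h2, h3⟩
  exact ⟨P, Q, h4, h6.1, h6.2⟩

include hG in
theorem sr_img {y z : ℝ} (h : Sr rl G y z) : Sr rl G (G j y) (G j z) := by
  obtain ⟨p, q, h1, h2, h3⟩ := h
  obtain ⟨P, Q, h4, h5⟩ := gd_img hG j h1
  exact ⟨P, Q, h4, (h5 y).2 h2, (h5 z).2 h3⟩

theorem inv_inc {f f' : ℝ → ℝ} (h : ∀ x, f (f' x) = x) (hf : Inc rl f) : Inc rl f' := by
  intro x y hxy
  rw [← h x, ← h y] at hxy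
  exact (inc_iff hf _ _).1 hxy

theorem inv_dec {f f' : ℝ → ℝ} (h : ∀ x, f (f' x) = x) (hf : Dec rl f) : Dec rl f' := by
  intro x y hxy
  rw [← h x, ← h y] at hxy
  exact (dec_iff hf _ _).1 hxy

theorem lm_img {f f' g g' : ℝ → ℝ} (hf : Inc rl f ∨ Dec rl f) (hf' : ∀ x, f (f' x) = x)
    (hg : ∀ x, g' (f x) = f (g x)) {y x : ℝ} (h : Lm rl g y x) : Lm rl g' (f y) (f x) := by
  have hit : ∀ n : ℕ, g'^[n] (f y) = f (g^[n] y) := by
    intro n
    have hs : Function.Semiconj f g g' := fun z => (hg z).symm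
    exact ((hs.iterate_right n) y).symm
  have hsur : ∀ z, ∃ z1, f z1 = z := fun z => ⟨f' z, hf' z⟩
  rcases hf with hf | hf
  · rcases h with ⟨h1, h2, h3⟩ | ⟨h1, h2, h3⟩
    · left
      refine ⟨hf _ _ h1, fun n => ?_, fun z hz => ?_⟩
      · rw [hit]
        exact hf _ _ (h2 n)
      · obtain ⟨z, rfl⟩ := hsur z
        obtain ⟨n, hn⟩ := h3 z ((inc_iff hf _ _).1 hz)
        refine ⟨n, ?_⟩
        rw [hit]
        exact hf _ _ hn
    · right
      refine ⟨hf _ _ h1, fun n => ?_, fun z hz => ?_⟩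
      · rw [hit]
        exact hf _ _ (h2 n)
      · obtain ⟨z, rfl⟩ := hsur z
        obtain ⟨n, hn⟩ := h3 z ((inc_iff hf _ _).1 hz)
        refine ⟨n, ?_⟩
        rw [hit]
        exact hf _ _ hn
  · rcases h with ⟨h1, h2, h3⟩ | ⟨h1, h2, h3⟩
    · right
      refine ⟨hf _ _ h1, fun n => ?_, fun z hz => ?_⟩
      · rw [hit]
        exact hf _ _ (h2 n)
      · obtain ⟨z, rfl⟩ := hsur z
        obtain ⟨n, hn⟩ := h3 z ((dec_iff hf _ _).1 hz)
        refine ⟨n, ?_⟩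
        rw [hit]
        exact hf _ _ hn
    · left
      refine ⟨hf _ _ h1, fun n => ?_, fun z hz => ?_⟩
      · rw [hit]
        exact hf _ _ (h2 n)
      · obtain ⟨z, rfl⟩ := hsur z
        obtain ⟨n, hn⟩ := h3 z ((dec_iff hf _ _).1 hz)
        refine ⟨n, ?_⟩
        rw [hit]
        exact hf _ _ hn

theorem conj_inc {f f' g : ℝ → ℝ} (hf : Inc rl f ∨ Dec rl f) (hf' : ∀ x, f (f' x) = x)
    (hg : Inc rl g) : Inc rl fun z => f (g (f' z)) := by
  rcases hf with hf | hf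
  · exact fun x y h => hf _ _ (hg _ _ (inv_inc hf' hf _ _ h))
  · exact fun x y h => hf _ _ (hg _ _ (inv_dec hf' hf _ _ h))

theorem conj_dec {f f' g : ℝ → ℝ} (hf : Inc rl f ∨ Dec rl f) (hf' : ∀ x, f (f' x) = x)
    (hg : Dec rl g) : Dec rl fun z => f (g (f' z)) := by
  rcases hf with hf | hf
  · exact fun x y h => hf _ _ (hg _ _ (inv_inc hf' hf _ _ h))
  · exact fun x y h => hf _ _ (hg _ _ (inv_dec hf' hf _ _ h))

include hG in
theorem e1_img {x : ℝ} (h : E1 rl G x) : E1 rl G (G j x) := by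
  obtain ⟨j1, hj1, hj2⟩ := hG.inv j
  rcases h with ⟨i, y, h1, h2⟩ | ⟨i, h1, h2⟩
  · obtain ⟨k, hk⟩ := conj hG j1 j i
    left
    have hk' : G k = fun z => G j (G i (G j1 z)) := funext hk
    refine ⟨k, G j y, ?_, ?_⟩
    · rw [hk']
      exact conj_inc (hG.mono j) hj2 h1
    · refine lm_img (hG.mono j) hj2 (fun z => ?_) h2
      rw [hk, hj1]
  · obtain ⟨k, hk⟩ := conj hG j1 j i
    right
    have hk' : G k = fun z => G j (G i (G j1 z)) := funext hk
    refine ⟨k, ?_, ?_⟩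
    · rw [hk']
      exact conj_dec (hG.mono j) hj2 h1
    · rw [hk, hj1, h2]

include hG in
theorem e2_img {x : ℝ} (h : E2 rl G x) : E2 rl G (G j x) := by
  obtain ⟨j1, hj1, hj2⟩ := hG.inv j
  obtain ⟨h1, y, h2⟩ := h
  refine ⟨fun h => h1 ?_, G j y, ?_⟩
  · have := ws_img hG j1 h
    rwa [hj1] at this
  · rcases hG.mono j with hf | hf
    · rcases h2 with ⟨h3, h4⟩ | ⟨h3, h4⟩
      · left
        refine ⟨hf _ _ h3, fun z hz1 hz2 => ?_⟩
        obtain ⟨z, rfl⟩ : ∃ z1, G j z1 = z := ⟨G j1 z, hj2 z⟩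
        exact sr_img hG j (h4 z ((inc_iff hf _ _).1 hz1) ((inc_iff hf _ _).1 hz2))
      · right
        refine ⟨hf _ _ h3, fun z hz1 hz2 => ?_⟩
        obtain ⟨z, rfl⟩ : ∃ z1, G j z1 = z := ⟨G j1 z, hj2 z⟩
        exact sr_img hG j (h4 z ((inc_iff hf _ _).1 hz1) ((inc_iff hf _ _).1 hz2))
    · rcases h2 with ⟨h3, h4⟩ | ⟨h3, h4⟩
      · right
        refine ⟨hf _ _ h3, fun z hz1 hz2 => ?_⟩
        obtain ⟨z, rfl⟩ : ∃ z1, G j z1 = z := ⟨G j1 z, hj2 z⟩
        exact sr_img hG j (h4 z ((dec_iff hf _ _).1 hz2) ((dec_iff hf _ _).1 hz1))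
      · left
        refine ⟨hf _ _ h3, fun z hz1 hz2 => ?_⟩
        obtain ⟨z, rfl⟩ : ∃ z1, G j z1 = z := ⟨G j1 z, hj2 z⟩
        exact sr_img hG j (h4 z ((dec_iff hf _ _).1 hz2) ((dec_iff hf _ _).1 hz1))

include hG in
theorem es_img {x : ℝ} (h : Es rl G x) : Es rl G (G j x) := by
  rcases h with h | h
  · exact Or.inl (e1_img hG j h)
  · exact Or.inr (e2_img hG j h)

theorem cont_of {f f' : ℝ → ℝ} (hf : Inc rl f ∨ Dec rl f) (hf' : ∀ x, f (f' x) = x) :
    Continuous f := by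
  have hsur : Function.Surjective f := fun z => ⟨f' z, hf' z⟩
  rcases hf with hf | hf
  · exact (show StrictMono f from fun a b h => hf a b h).monotone.continuous_of_surjective hsur
  · have h1 : StrictMono fun x => - f x := fun a b h => neg_lt_neg (hf a b h)
    have h2 : Function.Surjective fun x => - f x := fun z => by
      obtain ⟨w, hw⟩ := hsur (-z)
      exact ⟨w, by change - f w = z; rw [hw, neg_neg]⟩
    have h3 := (h1.monotone.continuous_of_surjective h2).neg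
    have h4 : f = fun x => - - f x := by
      funext x
      rw [neg_neg]
    rw [h4]
    exact h3

include hG in
theorem fc_img {x : ℝ} (h : x ∈ Fc G) : G j x ∈ Fc G := by
  obtain ⟨j1, hj1, hj2⟩ := hG.inv j
  exact map_mem_closure (cont_of (hG.mono j) hj2) h fun z hz => es_img hG j hz

include hG in
theorem sc_img {x y : ℝ} (h : SC G x y) : SC G (G j x) (G j y) := by
  obtain ⟨j1, hj1, hj2⟩ := hG.inv j
  intro z hz hz'
  have h1 : G j1 z ∈ uIcc x y := by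
    rcases hG.mono j with hf | hf
    · have h2 := inv_inc hj2 hf
      have h3 : Monotone (G j1) := (show StrictMono (G j1) from fun a b h => h2 a b h).monotone
      have h4 := h3.mapsTo_uIcc hz
      rwa [hj1, hj1] at h4
    · have h2 := inv_dec hj2 hf
      have h3 : Antitone (G j1) := (show StrictAnti (G j1) from fun a b h => h2 a b h).antitone
      have h4 := h3.mapsTo_uIcc hz
      rwa [hj1, hj1] at h4
  exact h _ h1 (fc_img hG j1 hz')

end

theorem pf_INV : T_INV := by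
  intro ι G hG j
  exact ⟨fun x h => ws_img hG j h, fun y z h => sr_img hG j h, fun x h => es_img hG j h,
    fun x h => fc_img hG j h, fun x y h => sc_img hG j h⟩

end Pool.Agent.H42.ALV
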